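import Pool.Agent.H68.Sg3

namespace Pool.Agent.Results.MP_07fa45_al.Nontrivial

open Pool.Agent.H68.Sg

theorem result (B W : Type) [Finite B] [Group W] (M : CoxeterMatrix B) (cs : CoxeterSystem M W)
    (c : B → B → ℤˣ) (hc : IsSignChoice cs c) :
    (PresentedGroup.of none : PresentedGroup (rels M c)) ≠ 1 :=
  main cs c hc

end Pool.Agent.Results.MP_07fa45_al.Nontrivial
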